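import Mathlib

/-!
# An equivelar self-dual polyhedron without a polarity

We construct an abstract polyhedron of type `{6, 6}` with 8 vertices, 24 edges and 8 two-faces (96
flags) which is self-dual, but whose dualities all have period 4. It is a map on a closed orientable
surface of genus 5, found as a `ℤ/4`-cover; the group of automorphisms and dualities is cyclic of
order 4 and is generated by a duality.
-/

namespace Pool.Agent.Results.MP_1940b6_co.NoPolarity

section Definitions

variable {P : Type} [PartialOrder P]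

/-- A flag is a maximal chain of faces. -/
def IsFlag (C : Set P) : Prop := IsMaxChain (fun x y : P => x ≤ y) C

/-- An abstract polyhedron: a partially ordered set `P` with a rank function `rk`. -/
structure IsPolyhedron (rk : P → ℤ) : Prop where
  /-- the rank function is strictly monotone -/
  strictMono : StrictMono rk
  /-- the rank function is onto `{-1, 0, 1, 2, 3}` -/
  range : Set.range rk = {-1, 0, 1, 2, 3}
  /-- there is a least face, and it is the only face of rank `-1` -/
  least : ∃ b : P, (∀ x, b ≤ x) ∧ ∀ x, rk x = -1 ↔ x = b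
  /-- there is a greatest face, and it is the only face of rank `3` -/
  greatest : ∃ t : P, (∀ x, x ≤ t) ∧ ∀ x, rk x = 3 ↔ x = t
  /-- every flag has exactly five elements -/
  flag_card : ∀ C : Set P, IsFlag C → C.ncard = 5
  /-- the diamond condition -/
  diamond : ∀ (j : ℤ) (F G : P), rk F = j - 1 → rk G = j + 1 → F ≤ G →
    {H : P | rk H = j ∧ F ≤ H ∧ H ≤ G}.ncard = 2
  /-- strong flag-connectedness: two flags `Φ`, `Ψ` are joined by a sequence of flags, each differing
  from the next in exactly one face and each containing `Φ ∩ Ψ` -/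
  flag_conn : ∀ Φ Ψ : Set P, IsFlag Φ → IsFlag Ψ →
    Relation.ReflTransGen (fun A B : Set P => IsFlag B ∧ (A \ B).ncard = 1 ∧ (B \ A).ncard = 1 ∧
      Φ ∩ Ψ ⊆ B) Φ Ψ

/-- The section between `F` and `G` is a `p`-gon: its faces of ranks `rk F + 1` and `rk F + 2` are
listed as `a i` and `b i` for `i` modulo `p`, and `a i` is incident with `b i` and with `b (i - 1)`
only. -/
def IsGon (rk : P → ℤ) (p : ℕ) (F G : P) : Prop :=
  ∃ a b : ZMod p → P, Function.Injective a ∧ Function.Injective b ∧
    Set.range a = {H : P | rk H = rk F + 1 ∧ F ≤ H ∧ H ≤ G} ∧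
    Set.range b = {H : P | rk H = rk F + 2 ∧ F ≤ H ∧ H ≤ G} ∧
    ∀ i j : ZMod p, a i ≤ b j ↔ i = j ∨ i = j + 1

/-- Equivelar of type `{p, q}`: every 2-face is a `p`-gon and every vertex-figure is a `q`-gon. -/
def IsEquivelar (rk : P → ℤ) (p q : ℕ) : Prop :=
  (∀ b G : P, rk b = -1 → rk G = 2 → IsGon rk p b G) ∧
    (∀ F t : P, rk F = 0 → rk t = 3 → IsGon rk q F t)

/-- A duality: an incidence-reversing bijection. -/
def IsDuality (δ : P ≃ P) : Prop := ∀ F G : P, F ≤ G ↔ δ G ≤ δ F

end Definitions

/-! ## The data -/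

/-- vertices of the flags -/
def tv : ℕ := 354136797906888743737566748368495430148977017105207552852245905111434220688779323902784
/-- 2-faces of the flags -/
def tf : ℕ := 315768488851168824114390948991802959625899392163949581678103923378768099340638832723025
/-- the edge-changing involution -/
def ts : ℕ := 14001344694274487738907113686094883704110522095597133058096357756477121356973001431847779697730497525629670528507838975156959959983116170195833108134826524449698694024631214648860449386826990464173180980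
/-- the order -/
def tU : ℕ := 519855155847869002688333928299344755694949635149404332124249861163015942520807876280710907977085354407651122668734681825542034153603144140070003514776189740810034306922367698319267928384598367462054414054209281582025057112423511110924955549906725993393405486204185815835960570490301887543255295422698677994802670047949678177716581379023511205697910671501473807419256296290866918656765950942847464917898458396982885715769064283713304451760749810674980704094633560583379947670358347789467509603550856230207579412063933479733929443327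
/-- distances inside 2-faces -/
def td01 : ℕ := 7890588951494685063587761225427319923897916957128892666590133494406553281365151650500527139332914956250471188140288
/-- distances inside vertex-figures -/
def td12 : ℕ := 13256609912545871033400130407261301469149554385548234182664694065165470885493996515207071906123715799265864576274448
/-- distances from the flag 0 -/
def td012 : ℕ := 15925496052759215695906504673802207676620168971926412286522861448884986480230880895762395914276956372586858139754768
/-- base flags of 2-faces -/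
def trF : ℕ := 14148690933465092
/-- base flags of vertices -/
def trV : ℕ := 12464135229113344
/-- vertices of the 2-faces -/
def tFA : ℕ := 39709109189246492031828190525764772830471092574361772688925625639982093543745090257153
/-- edges of the 2-faces -/
def tFB : ℕ := 166250567227919842134621382174314083391312552531650788834446019820562420500077361333130
/-- edges of the vertex-figures -/
def tVA : ℕ := 212144457951781410469656355164224894887635651089903334883178017971210373068387825350025
/-- 2-faces of the vertex-figures -/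
def tVB : ℕ := 307375435896888746188926124630069362604361907551274113109361392310432783598615058082146
/-- a duality -/
def tde : ℕ := 12590982894744954060847350417680819241345398651349956426940092859286431849
/-- its inverse -/
def tdi : ℕ := 14330647696988292498318412016549029100382231927956085964932778554849106089

/-- the up-set of a face -/
def up (x : Fin 42) : ℕ := (tU >>> (42 * x.val)) % 2 ^ 42

/-- the order relation -/
def leb (x y : Fin 42) : Bool := (up x).testBit y.val

/-- the rank -/
def rkN (x : Fin 42) : ℤ :=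
  if x.val = 0 then -1 else if x.val ≤ 8 then 0 else if x.val ≤ 32 then 1
    else if x.val ≤ 40 then 2 else 3

/-- the vertex of a flag -/
def vf (i : Fin 96) : Fin 42 := Fin.ofNat 42 (1 + (tv >>> (3 * i.val)) % 8)
/-- the edge of a flag -/
def ef (i : Fin 96) : Fin 42 := Fin.ofNat 42 (9 + i.val / 4)
/-- the 2-face of a flag -/
def ff (i : Fin 96) : Fin 42 := Fin.ofNat 42 (33 + (tf >>> (3 * i.val)) % 8)

/-- the flag that differs from `i` in the face of rank `k` -/
def s (k : Fin 3) (i : Fin 96) : Fin 96 :=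
  if k = 0 then Fin.ofNat 96 (i.val ^^^ 2)
  else if k = 1 then Fin.ofNat 96 ((ts >>> (7 * i.val)) % 128)
  else Fin.ofNat 96 (i.val ^^^ 1)

/-- the faces -/
def Face : Type := Fin 42

instance : DecidableEq Face := inferInstanceAs (DecidableEq (Fin 42))
instance : Fintype Face := inferInstanceAs (Fintype (Fin 42))

theorem leb_refl : ∀ x, leb x x = true := by decide +kernel

theorem leb_rank : ∀ x y, leb x y = true → x = y ∨ rkN x < rkN y := by decide +kernel

theorem leb_up : ∀ x y, leb x y = true → up y &&& up x = up y := by decide +kernel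

theorem leb_trans {x y z : Fin 42} (h1 : leb x y = true) (h2 : leb y z = true) :
    leb x z = true := by
  have h := leb_up x y h1
  unfold leb at h2 ⊢
  rw [← h, Nat.testBit_land] at h2
  exact (Bool.and_eq_true_iff.1 h2).2

instance : PartialOrder Face where
  le x y := leb x y = true
  le_refl x := leb_refl x
  le_trans _ _ _ h1 h2 := leb_trans h1 h2
  le_antisymm x y h1 h2 := by
    rcases leb_rank x y h1 with h | h
    · exact h
    · rcases leb_rank y x h2 with h' | h'
      · exact h'.symm
      · exact absurd h' (not_lt.2 h.le)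

/-- the rank function -/
def rk (x : Face) : ℤ := rkN x

theorem le_def {x y : Face} : x ≤ y ↔ leb x y = true := Iff.rfl

instance : DecidableRel (fun x y : Face => x ≤ y) := fun x y =>
  inferInstanceAs (Decidable (leb x y = true))

theorem rank_lt {x y : Face} (h : x < y) : rk x < rk y := by
  rcases leb_rank x y h.le with h' | h'
  · exact absurd h' h.ne
  · exact h'

theorem eq_of_le_of_rank {x y : Face} (h : x ≤ y ∨ y ≤ x) (hr : rk x = rk y) : x = y := by
  rcases h with h | h
  · rcases leb_rank x y h with h' | h'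
    · exact h'
    · exact absurd hr h'.ne
  · rcases leb_rank y x h with h' | h'
    · exact h'.symm
    · exact absurd hr.symm h'.ne

/-- a number as a face -/
abbrev toF (x : Fin 42) : Face := x

/-- the least face -/
def bo : Face := (0 : Fin 42)
/-- the greatest face -/
def tp : Face := (41 : Fin 42)

theorem bo_le (x : Face) : bo ≤ x := (show ∀ x, leb 0 x = true by decide +kernel) x
theorem le_to (x : Face) : x ≤ tp := (show ∀ x, leb x 41 = true by decide +kernel) x
theorem rk_bo (x : Face) : rk x = -1 ↔ x = bo :=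
  (show ∀ x : Fin 42, rkN x = -1 ↔ x = 0 by decide +kernel) x
theorem rk_to (x : Face) : rk x = 3 ↔ x = tp :=
  (show ∀ x : Fin 42, rkN x = 3 ↔ x = 41 by decide +kernel) x
theorem rk_cases (x : Face) : rk x = -1 ∨ rk x = 0 ∨ rk x = 1 ∨ rk x = 2 ∨ rk x = 3 :=
  (show ∀ x : Fin 42, rkN x = -1 ∨ rkN x = 0 ∨ rkN x = 1 ∨ rkN x = 2 ∨ rkN x = 3 by
    decide +kernel) x

/-- the flag with number `i` -/
def flF (i : Fin 96) : Finset Face := {bo, (toF (vf i)), (toF (ef i)), (toF (ff i)), tp}

theorem gap : ∀ x y : Fin 42, leb x y = true → rkN x + 2 ≤ rkN y →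
    ∃ h : Fin 42, leb x h = true ∧ leb h y = true ∧ rkN x < rkN h ∧ rkN h < rkN y := by
  decide +kernel

theorem rk_vf : ∀ i, rkN (vf i) = 0 := by decide +kernel
theorem rk_ef : ∀ i, rkN (ef i) = 1 := by decide +kernel
theorem rk_ff : ∀ i, rkN (ff i) = 2 := by decide +kernel
theorem vf_le_ef : ∀ i, leb (vf i) (ef i) = true := by decide +kernel
theorem ef_le_ff : ∀ i, leb (ef i) (ff i) = true := by decide +kernel

theorem inc_v : ∀ (e : Fin 24) (x : Fin 42), rkN x = 0 → leb x (Fin.ofNat 42 (9 + e.val)) = true →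
    x = vf (Fin.ofNat 96 (4 * e.val)) ∨ x = vf (Fin.ofNat 96 (4 * e.val + 2)) := by decide +kernel
theorem inc_f : ∀ (e : Fin 24) (x : Fin 42), rkN x = 2 → leb (Fin.ofNat 42 (9 + e.val)) x = true →
    x = ff (Fin.ofNat 96 (4 * e.val)) ∨ x = ff (Fin.ofNat 96 (4 * e.val + 1)) := by decide +kernel
theorem inc_e : ∀ x : Fin 42, rkN x = 1 → ∃ e : Fin 24, x = Fin.ofNat 42 (9 + e.val) := by
  decide +kernel
theorem four : ∀ (e : Fin 24) (a b : Fin 2),
    vf (Fin.ofNat 96 (4 * e.val + 2 * a.val + b.val)) = vf (Fin.ofNat 96 (4 * e.val + 2 * a.val)) ∧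
    ff (Fin.ofNat 96 (4 * e.val + 2 * a.val + b.val)) = ff (Fin.ofNat 96 (4 * e.val + b.val)) ∧
    ef (Fin.ofNat 96 (4 * e.val + 2 * a.val + b.val)) = Fin.ofNat 42 (9 + e.val) := by
  decide +kernel

/-- every chain of a vertex, an edge and a 2-face is in the list -/
theorem exists_flag (x y z : Fin 42) (hx : rkN x = 0) (hy : rkN y = 1) (hz : rkN z = 2)
    (h1 : leb x y = true) (h2 : leb y z = true) : ∃ i, vf i = x ∧ ef i = y ∧ ff i = z := by
  obtain ⟨e, rfl⟩ := inc_e y hy
  obtain ⟨a, ha⟩ : ∃ a : Fin 2, x = vf (Fin.ofNat 96 (4 * e.val + 2 * a.val)) := by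
    rcases inc_v e x hx h1 with h | h
    · exact ⟨0, h⟩
    · exact ⟨1, h⟩
  obtain ⟨b, hb⟩ : ∃ b : Fin 2, z = ff (Fin.ofNat 96 (4 * e.val + b.val)) := by
    rcases inc_f e z hz h2 with h | h
    · exact ⟨0, h⟩
    · exact ⟨1, h⟩
  obtain ⟨h3, h4, h5⟩ := four e a b
  exact ⟨_, h3.trans ha.symm, h5, h4.trans hb.symm⟩

theorem flF_chain : ∀ i : Fin 96,
    leb (vf i) (ff i) = true := by decide +kernel

theorem mem_flF {i : Fin 96} {x : Face} : x ∈ flF i ↔
    x = bo ∨ x = (toF (vf i)) ∨ x = (toF (ef i)) ∨ x = (toF (ff i)) ∨ x = tp := by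
  unfold flF
  simp only [Finset.mem_insert, Finset.mem_singleton]

/-- the faces of a flag of the list -/
theorem exists_mem_flF (i : Fin 96) (x : Face) : ∃ y ∈ flF i, rk y = rk x := by
  rcases rk_cases x with h | h | h | h | h
  · exact ⟨bo, mem_flF.2 (Or.inl rfl), by rw [h]; exact (rk_bo bo).2 rfl⟩
  · exact ⟨toF (vf i), mem_flF.2 (Or.inr (Or.inl rfl)), by rw [h]; exact rk_vf i⟩
  · exact ⟨toF (ef i), mem_flF.2 (Or.inr (Or.inr (Or.inl rfl))), by rw [h]; exact rk_ef i⟩
  · exact ⟨toF (ff i), mem_flF.2 (Or.inr (Or.inr (Or.inr (Or.inl rfl)))), by rw [h]; exact rk_ff i⟩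
  · exact ⟨tp, mem_flF.2 (Or.inr (Or.inr (Or.inr (Or.inr rfl)))), by rw [h]; exact (rk_to tp).2 rfl⟩

theorem comp_flF (i : Fin 96) {x y : Face} (hx : x ∈ flF i) (hy : y ∈ flF i) : x ≤ y ∨ y ≤ x := by
  have h1 : (toF (vf i)) ≤ (toF (ef i)) := vf_le_ef i
  have h2 : (toF (ef i)) ≤ (toF (ff i)) := ef_le_ff i
  have h3 : (toF (vf i)) ≤ (toF (ff i)) := h1.trans h2
  rcases mem_flF.1 hx with rfl | rfl | rfl | rfl | rfl
  · exact Or.inl (bo_le _)
  · rcases mem_flF.1 hy with rfl | rfl | rfl | rfl | rfl
    · exact Or.inr (bo_le _)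
    · exact Or.inl le_rfl
    · exact Or.inl h1
    · exact Or.inl h3
    · exact Or.inl (le_to _)
  · rcases mem_flF.1 hy with rfl | rfl | rfl | rfl | rfl
    · exact Or.inr (bo_le _)
    · exact Or.inr h1
    · exact Or.inl le_rfl
    · exact Or.inl h2
    · exact Or.inl (le_to _)
  · rcases mem_flF.1 hy with rfl | rfl | rfl | rfl | rfl
    · exact Or.inr (bo_le _)
    · exact Or.inr h3
    · exact Or.inr h2
    · exact Or.inl le_rfl
    · exact Or.inl (le_to _)
  · exact Or.inr (le_to _)

theorem isFlag_flF (i : Fin 96) : IsFlag (flF i : Set Face) := by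
  refine ⟨fun x hx y hy _ => comp_flF i hx hy, fun t ht hsub => ?_⟩
  refine Set.Subset.antisymm hsub fun x hx => ?_
  obtain ⟨y, hy, hr⟩ := exists_mem_flF i x
  have hyt : y ∈ t := hsub hy
  have h : y ≤ x ∨ x ≤ y := by
    by_cases hxy : y = x
    · exact Or.inl hxy.le
    · exact ht hyt hx hxy
  rw [← eq_of_le_of_rank h hr]
  exact hy

theorem exists_rank {C : Set Face} (hC : IsFlag C) (j : ℤ) (hj : -1 ≤ j) (hj' : j ≤ 3) :
    ∃ x ∈ C, rk x = j := by
  by_contra hcon
  push Not at hcon
  have hbo : bo ∈ C := by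
    have h := hC.2 (t := insert bo C) (hC.1.insert fun b _ _ => Or.inl (bo_le b))
      (Set.subset_insert _ _)
    rw [h]
    exact Set.mem_insert _ _
  have hto : tp ∈ C := by
    have h := hC.2 (t := insert tp C) (hC.1.insert fun b _ _ => Or.inr (le_to b))
      (Set.subset_insert _ _)
    rw [h]
    exact Set.mem_insert _ _
  have hrb : rk bo = -1 := (rk_bo bo).2 rfl
  have hrt : rk tp = 3 := (rk_to tp).2 rfl
  have hcomp : ∀ x ∈ C, ∀ y ∈ C, x ≤ y ∨ y ≤ x := by
    intro x hx y hy
    by_cases hxy : x = y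
    · exact Or.inl hxy.le
    · exact hC.1 hx hy hxy
  obtain ⟨F, ⟨hF1, hF2⟩, hF3⟩ := Set.exists_max_image {x | x ∈ C ∧ rk x < j} rk (Set.toFinite _)
    ⟨bo, hbo, by have := hcon bo hbo; omega⟩
  obtain ⟨G, ⟨hG1, hG2⟩, hG3⟩ := Set.exists_min_image {x | x ∈ C ∧ j < rk x} rk (Set.toFinite _)
    ⟨tp, hto, by have := hcon tp hto; omega⟩
  have hFG : F ≤ G := by
    rcases hcomp F hF1 G hG1 with h | h
    · exact h
    · rcases leb_rank G F h with h' | h'
      · exact le_of_eq (show F = G from h'.symm)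
      · exact absurd (hG2.trans (h'.trans hF2)) (lt_irrefl _)
  obtain ⟨h, h1, h2, h3, h4⟩ := gap F G hFG (by change rk F + 2 ≤ rk G; omega)
  have hmem : h ∈ C := by
    have h5 := hC.2 (t := insert h C) (hC.1.insert fun b hb _ => ?_) (Set.subset_insert _ _)
    · rw [h5]
      exact Set.mem_insert _ _
    · rcases lt_trichotomy (rk b) j with hb1 | hb1 | hb1
      · right
        have h6 := hF3 b ⟨hb, hb1⟩
        have h7 : b ≤ F := by
          rcases hcomp b hb F hF1 with h7 | h7
          · exact h7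
          · rcases leb_rank F b h7 with h8 | h8
            · exact le_of_eq (show b = F from h8.symm)
            · exact absurd (lt_of_lt_of_le h8 h6) (lt_irrefl _)
        exact h7.trans h1
      · exact absurd hb1 (hcon b hb)
      · left
        have h6 := hG3 b ⟨hb, hb1⟩
        have h7 : G ≤ b := by
          rcases hcomp G hG1 b hb with h7 | h7
          · exact h7
          · rcases leb_rank b G h7 with h8 | h8
            · exact le_of_eq (show G = b from h8.symm)
            · exact absurd (lt_of_lt_of_le h8 h6) (lt_irrefl _)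
        exact le_trans (show toF h ≤ G from h2) h7
  have h5 := hcon h hmem
  rcases lt_or_gt_of_ne h5 with h6 | h6
  · exact absurd (hF3 h ⟨hmem, h6⟩) (not_le.2 h3)
  · exact absurd (hG3 h ⟨hmem, h6⟩) (not_le.2 h4)

theorem exists_eq_flF {C : Set Face} (hC : IsFlag C) : ∃ i, C = (flF i : Set Face) := by
  obtain ⟨x, hx, hx'⟩ := exists_rank hC 0 (by norm_num) (by norm_num)
  obtain ⟨y, hy, hy'⟩ := exists_rank hC 1 (by norm_num) (by norm_num)
  obtain ⟨z, hz, hz'⟩ := exists_rank hC 2 (by norm_num) (by norm_num)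
  have hcomp : ∀ a ∈ C, ∀ b ∈ C, rk a < rk b → a ≤ b := by
    intro a ha b hb hab
    have hne : a ≠ b := fun h => by rw [h] at hab; exact lt_irrefl _ hab
    rcases hC.1 ha hb hne with h | h
    · exact h
    · rcases leb_rank b a h with h' | h'
      · exact absurd h'.symm hne
      · exact absurd (hab.trans h') (lt_irrefl _)
  obtain ⟨i, h1, h2, h3⟩ := exists_flag x y z hx' hy' hz' (hcomp x hx y hy (by omega))
    (hcomp y hy z hz (by omega))
  refine ⟨i, Eq.symm ((isFlag_flF i).2 hC.1 ?_)⟩
  intro w hw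
  obtain ⟨b, hb, hb'⟩ := exists_rank hC (-1) (by norm_num) (by norm_num)
  obtain ⟨t, ht, ht'⟩ := exists_rank hC 3 (by norm_num) (by norm_num)
  rcases mem_flF.1 hw with rfl | rfl | rfl | rfl | rfl
  · rw [← (rk_bo b).1 hb']; exact hb
  · rw [h1]; exact hx
  · rw [h2]; exact hy
  · rw [h3]; exact hz
  · rw [← (rk_to t).1 ht']; exact ht

theorem card_flF : ∀ i : Fin 96, (flF i).card = 5 := by decide +kernel

theorem sdiff_flF : ∀ (k : Fin 3) (i : Fin 96), (flF i \ flF (s k i)).card = 1 ∧
    (flF (s k i) \ flF i).card = 1 := by decide +kernel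

theorem s_s : ∀ (k : Fin 3) (i : Fin 96), s k (s k i) = i := by decide +kernel

/-- the face of rank `k` of the flag `i` -/
def fk (k : Fin 3) (i : Fin 96) : Fin 42 := if k = 0 then vf i else if k = 1 then ef i else ff i

theorem fk_s : ∀ (k l : Fin 3) (i : Fin 96), k ≠ l → fk l (s k i) = fk l i := by decide +kernel
theorem fk_s_ne : ∀ (k : Fin 3) (i : Fin 96), fk k (s k i) ≠ fk k i := by decide +kernel
theorem rk_fk : ∀ (k : Fin 3) (i : Fin 96), rkN (fk k i) = k.val := by decide +kernel

theorem mem_flF' {i : Fin 96} {x : Face} : x ∈ flF i ↔ x = bo ∨ (∃ k, x = (toF (fk k i))) ∨ x = tp := by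
  rw [mem_flF]
  constructor
  · rintro (h | h | h | h | h)
    · exact Or.inl h
    · exact Or.inr (Or.inl ⟨0, h⟩)
    · exact Or.inr (Or.inl ⟨1, h⟩)
    · exact Or.inr (Or.inl ⟨2, h⟩)
    · exact Or.inr (Or.inr h)
  · rintro (h | ⟨k, h⟩ | h)
    · exact Or.inl h
    · fin_cases k
      · exact Or.inr (Or.inl h)
      · exact Or.inr (Or.inr (Or.inl h))
      · exact Or.inr (Or.inr (Or.inr (Or.inl h)))
    · exact Or.inr (Or.inr (Or.inr (Or.inr h)))

/-- two flags of the list that differ at most in the face of rank `k` -/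
theorem eq_or_s : ∀ (i j : Fin 96), vf i = vf j → ff i = ff j → j = i ∨ j = s 1 i := by
  decide +kernel

theorem eq_or_s02 : ∀ (e : Fin 24) (a b : Fin 4),
    let i : Fin 96 := Fin.ofNat 96 (4 * e.val + a.val)
    let j : Fin 96 := Fin.ofNat 96 (4 * e.val + b.val)
    (vf i = vf j → j = i ∨ j = s 2 i) ∧ (ff i = ff j → j = i ∨ j = s 0 i) := by
  decide +kernel

theorem ef_eq {i j : Fin 96} (h : ef i = ef j) : ∃ (e : Fin 24) (a b : Fin 4),
    i = Fin.ofNat 96 (4 * e.val + a.val) ∧ j = Fin.ofNat 96 (4 * e.val + b.val) := by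
  have hi := i.isLt
  have hj := j.isLt
  have h1 : i.val / 4 = j.val / 4 := by
    have h2 := congrArg Fin.val h
    simp only [ef, Fin.ofNat] at h2
    omega
  refine ⟨⟨i.val / 4, by omega⟩, ⟨i.val % 4, by omega⟩, ⟨j.val % 4, by omega⟩, ?_, ?_⟩
  · apply Fin.ext
    simp only [Fin.ofNat]
    omega
  · apply Fin.ext
    simp only [Fin.ofNat]
    omega

theorem differ {i j : Fin 96} (k : Fin 3) (h : ∀ l, l ≠ k → fk l i = fk l j) :
    j = i ∨ j = s k i := by
  fin_cases k
  · obtain ⟨e, a, b, rfl, rfl⟩ := ef_eq (h 1 (by decide))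
    exact (eq_or_s02 e a b).2 (h 2 (by decide))
  · exact eq_or_s i j (h 0 (by decide)) (h 2 (by decide))
  · obtain ⟨e, a, b, rfl, rfl⟩ := ef_eq (h 1 (by decide))
    exact (eq_or_s02 e a b).1 (h 0 (by decide))

/-- one step of a path of flags that all contain `X` -/
def Step (X : Set Face) (A B : Set Face) : Prop :=
  IsFlag B ∧ (A \ B).ncard = 1 ∧ (B \ A).ncard = 1 ∧ X ⊆ B

theorem step_s {X : Set Face} (k : Fin 3) (i : Fin 96) (hX : X ⊆ (flF (s k i) : Set Face)) :
    Step X (flF i) (flF (s k i)) := by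
  refine ⟨isFlag_flF _, ?_, ?_, hX⟩
  · rw [← Finset.coe_sdiff, Set.ncard_coe_finset]
    exact (sdiff_flF k i).1
  · rw [← Finset.coe_sdiff, Set.ncard_coe_finset]
    exact (sdiff_flF k i).2

theorem subset_s {X : Set Face} {k : Fin 3} {i : Fin 96} (hk : ∀ x ∈ X, rk x ≠ k.val)
    (hX : X ⊆ (flF i : Set Face)) : X ⊆ (flF (s k i) : Set Face) := by
  intro x hx
  have h1 := mem_flF'.1 (Finset.mem_coe.1 (hX hx))
  refine Finset.mem_coe.2 (mem_flF'.2 ?_)
  rcases h1 with h | ⟨l, h⟩ | h
  · exact Or.inl h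
  · right; left
    refine ⟨l, ?_⟩
    by_cases hkl : k = l
    · exfalso
      apply hk x hx
      rw [h, hkl]
      exact rk_fk l i
    · rw [h]
      exact (fk_s k l i hkl).symm
  · exact Or.inr (Or.inr h)

/-- connectedness of the flags by the moves in `S` -/
theorem conn {X : Set Face} (S : List (Fin 3)) (rep : Fin 96 → Fin 96) (d : Fin 96 → ℕ)
    (hd : ∀ i, i = rep i ∨ ∃ k ∈ S, d (s k i) < d i ∧ rep (s k i) = rep i)
    (hX : ∀ k ∈ S, ∀ x ∈ X, rk x ≠ k.val) :
    ∀ i, X ⊆ (flF i : Set Face) →
      Relation.ReflTransGen (Step X) (flF i) (flF (rep i)) ∧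
      Relation.ReflTransGen (Step X) (flF (rep i)) (flF i) := by
  suffices H : ∀ n i, d i = n → X ⊆ (flF i : Set Face) →
      Relation.ReflTransGen (Step X) (flF i) (flF (rep i)) ∧
      Relation.ReflTransGen (Step X) (flF (rep i)) (flF i) from fun i => H _ i rfl
  intro n
  induction n using Nat.strong_induction_on with
  | _ n ih =>
    intro i hn hi
    rcases hd i with h | ⟨k, hk, h1, h2⟩
    · rw [← h]
      exact ⟨Relation.ReflTransGen.refl, Relation.ReflTransGen.refl⟩
    · have h3 := subset_s (hX k hk) hi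
      obtain ⟨h4, h5⟩ := ih _ (hn ▸ h1) (s k i) rfl h3
      rw [h2] at h4 h5
      refine ⟨Relation.ReflTransGen.head (step_s k i h3) h4, h5.tail ?_⟩
      have h6 := step_s (X := X) k (s k i) (by rw [s_s]; exact hi)
      rw [s_s] at h6
      exact h6

/-- base flag of the 2-face of `i` -/
def rF (i : Fin 96) : Fin 96 := Fin.ofNat 96 ((trF >>> (7 * ((tf >>> (3 * i.val)) % 8))) % 128)
/-- base flag of the vertex of `i` -/
def rV (i : Fin 96) : Fin 96 := Fin.ofNat 96 ((trV >>> (7 * ((tv >>> (3 * i.val)) % 8))) % 128)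
/-- base flag of the edge of `i` -/
def rE (i : Fin 96) : Fin 96 := Fin.ofNat 96 (4 * (i.val / 4))

/-- distances -/
def dF (i : Fin 96) : ℕ := (td01 >>> (4 * i.val)) % 16
/-- distances -/
def dV (i : Fin 96) : ℕ := (td12 >>> (4 * i.val)) % 16
/-- distances -/
def dA (i : Fin 96) : ℕ := (td012 >>> (4 * i.val)) % 16

theorem conn_F : ∀ i, i = rF i ∨ ∃ k ∈ ([0, 1] : List (Fin 3)), dF (s k i) < dF i ∧
    rF (s k i) = rF i := by decide +kernel
theorem conn_V : ∀ i, i = rV i ∨ ∃ k ∈ ([1, 2] : List (Fin 3)), dV (s k i) < dV i ∧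
    rV (s k i) = rV i := by decide +kernel
theorem conn_E : ∀ i, i = rE i ∨ ∃ k ∈ ([0, 2] : List (Fin 3)), (s k i).val < i.val ∧
    rE (s k i) = rE i := by decide +kernel
theorem conn_A : ∀ i : Fin 96, i = 0 ∨ ∃ k ∈ ([0, 1, 2] : List (Fin 3)), dA (s k i) < dA i ∧
    (0 : Fin 96) = 0 := by decide +kernel

theorem rF_eq {i j : Fin 96} (h : ff i = ff j) : rF i = rF j := by
  have h2 := congrArg Fin.val h
  simp only [ff, Fin.ofNat] at h2
  have h3 : (tf >>> (3 * i.val)) % 8 = (tf >>> (3 * j.val)) % 8 := by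
    have a1 := Nat.mod_lt (tf >>> (3 * i.val)) (show 0 < 8 by norm_num)
    have a2 := Nat.mod_lt (tf >>> (3 * j.val)) (show 0 < 8 by norm_num)
    generalize (tf >>> (3 * i.val)) % 8 = A at *
    generalize (tf >>> (3 * j.val)) % 8 = B at *
    omega
  unfold rF
  rw [h3]

theorem rV_eq {i j : Fin 96} (h : vf i = vf j) : rV i = rV j := by
  have h2 := congrArg Fin.val h
  simp only [vf, Fin.ofNat] at h2
  have h3 : (tv >>> (3 * i.val)) % 8 = (tv >>> (3 * j.val)) % 8 := by
    have a1 := Nat.mod_lt (tv >>> (3 * i.val)) (show 0 < 8 by norm_num)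
    have a2 := Nat.mod_lt (tv >>> (3 * j.val)) (show 0 < 8 by norm_num)
    generalize (tv >>> (3 * i.val)) % 8 = A at *
    generalize (tv >>> (3 * j.val)) % 8 = B at *
    omega
  unfold rV
  rw [h3]

theorem rE_eq {i j : Fin 96} (h : ef i = ef j) : rE i = rE j := by
  have hi := i.isLt
  have hj := j.isLt
  have h2 := congrArg Fin.val h
  simp only [ef, Fin.ofNat] at h2
  have h3 : i.val / 4 = j.val / 4 := by omega
  unfold rE
  rw [h3]

/-- a face of the flag `i` of rank `k` that lies in the flag `j` is the face of rank `k` of `j` -/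
theorem no_rank {i j : Fin 96} {k : Fin 3} (h : fk k i ≠ fk k j) :
    ∀ x ∈ (flF i : Set Face) ∩ (flF j : Set Face), rk x ≠ k.val := by
  rintro x ⟨h1, h2⟩ hr
  apply h
  have a1 : x = (toF (fk k i)) := by
    refine eq_of_le_of_rank (comp_flF i (Finset.mem_coe.1 h1) (mem_flF'.2 (Or.inr (Or.inl ⟨k, rfl⟩)))) ?_
    rw [hr]
    exact (rk_fk k i).symm
  have a2 : x = (toF (fk k j)) := by
    refine eq_of_le_of_rank (comp_flF j (Finset.mem_coe.1 h2) (mem_flF'.2 (Or.inr (Or.inl ⟨k, rfl⟩)))) ?_
    rw [hr]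
    exact (rk_fk k j).symm
  exact a1.symm.trans a2

theorem path (i j : Fin 96) : Relation.ReflTransGen
    (Step ((flF i : Set Face) ∩ (flF j : Set Face))) (flF i) (flF j) := by
  obtain ⟨X, hXdef⟩ : ∃ X : Set Face, X = (flF i : Set Face) ∩ (flF j : Set Face) := ⟨_, rfl⟩
  have hXi : X ⊆ (flF i : Set Face) := by rw [hXdef]; exact Set.inter_subset_left
  have hXj : X ⊆ (flF j : Set Face) := by rw [hXdef]; exact Set.inter_subset_right
  have hno : ∀ k, fk k i ≠ fk k j → ∀ x ∈ X, rk x ≠ k.val := by
    intro k hk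
    rw [hXdef]
    exact no_rank hk
  rw [← hXdef]
  have single : ∀ k : Fin 3, (∀ l, l ≠ k → fk l i = fk l j) →
      Relation.ReflTransGen (Step X) (flF i) (flF j) := by
    intro k hk
    rcases differ k hk with h | h
    · rw [h]
    · rw [h]
      refine Relation.ReflTransGen.single (step_s k i ?_)
      rw [← h]
      exact hXj
  by_cases h0 : fk 0 i = fk 0 j
  · by_cases h1 : fk 1 i = fk 1 j
    · exact single 2 (by intro l hl; fin_cases l <;> simp_all)
    · by_cases h2 : fk 2 i = fk 2 j
      · exact single 1 (by intro l hl; fin_cases l <;> simp_all)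
      · have hS : ∀ k ∈ ([1, 2] : List (Fin 3)), ∀ x ∈ X, rk x ≠ k.val := by
          intro k hk
          simp only [List.mem_cons, List.not_mem_nil, or_false] at hk
          rcases hk with rfl | rfl
          · exact hno 1 h1
          · exact hno 2 h2
        have c := conn [1, 2] rV dV conn_V hS
        have e : rV i = rV j := rV_eq h0
        exact (c i hXi).1.trans (by rw [e]; exact (c j hXj).2)
  · by_cases h1 : fk 1 i = fk 1 j
    · by_cases h2 : fk 2 i = fk 2 j
      · exact single 0 (by intro l hl; fin_cases l <;> simp_all)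
      · have hS : ∀ k ∈ ([0, 2] : List (Fin 3)), ∀ x ∈ X, rk x ≠ k.val := by
          intro k hk
          simp only [List.mem_cons, List.not_mem_nil, or_false] at hk
          rcases hk with rfl | rfl
          · exact hno 0 h0
          · exact hno 2 h2
        have c := conn [0, 2] rE (fun i => i.val) conn_E hS
        have e : rE i = rE j := rE_eq h1
        exact (c i hXi).1.trans (by rw [e]; exact (c j hXj).2)
    · by_cases h2 : fk 2 i = fk 2 j
      · have hS : ∀ k ∈ ([0, 1] : List (Fin 3)), ∀ x ∈ X, rk x ≠ k.val := by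
          intro k hk
          simp only [List.mem_cons, List.not_mem_nil, or_false] at hk
          rcases hk with rfl | rfl
          · exact hno 0 h0
          · exact hno 1 h1
        have c := conn [0, 1] rF dF conn_F hS
        have e : rF i = rF j := rF_eq h2
        exact (c i hXi).1.trans (by rw [e]; exact (c j hXj).2)
      · have hS : ∀ k ∈ ([0, 1, 2] : List (Fin 3)), ∀ x ∈ X, rk x ≠ k.val := by
          intro k hk
          simp only [List.mem_cons, List.not_mem_nil, or_false] at hk
          rcases hk with rfl | rfl | rfl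
          · exact hno 0 h0
          · exact hno 1 h1
          · exact hno 2 h2
        have c := conn [0, 1, 2] (fun _ => 0) dA conn_A hS
        exact (c i hXi).1.trans (c j hXj).2

theorem diam : ∀ x y : Fin 42, leb x y = true → rkN y = rkN x + 2 →
    (Finset.univ.filter fun h : Fin 42 => rkN h = rkN x + 1 ∧ leb x h = true ∧ leb h y = true).card = 2 := by
  decide +kernel

theorem isPolyhedron : IsPolyhedron rk where
  strictMono := fun _ _ h => rank_lt h
  range := by
    ext z
    simp only [Set.mem_range, Set.mem_insert_iff, Set.mem_singleton_iff]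
    constructor
    · rintro ⟨x, rfl⟩
      exact rk_cases x
    · rintro (rfl | rfl | rfl | rfl | rfl)
      · exact ⟨bo, (rk_bo bo).2 rfl⟩
      · exact ⟨toF (vf 0), rk_vf 0⟩
      · exact ⟨toF (ef 0), rk_ef 0⟩
      · exact ⟨toF (ff 0), rk_ff 0⟩
      · exact ⟨tp, (rk_to tp).2 rfl⟩
  least := ⟨bo, bo_le, rk_bo⟩
  greatest := ⟨tp, le_to, rk_to⟩
  flag_card := by
    intro C hC
    obtain ⟨i, rfl⟩ := exists_eq_flF hC
    rw [Set.ncard_coe_finset]
    exact card_flF i
  diamond := by
    intro j F G hF hG hFG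
    have h := diam F G hFG (by change rk G = rk F + 2; omega)
    have e : {H : Face | rk H = j ∧ F ≤ H ∧ H ≤ G} =
        ((Finset.univ.filter fun h : Fin 42 => rkN h = rkN F + 1 ∧ leb F h = true ∧
          leb h G = true : Finset (Fin 42)) : Set (Fin 42)) := by
      ext x
      simp only [Set.mem_ofPred_eq, Finset.coe_filter, Finset.mem_univ, true_and]
      have e1 : rkN F + 1 = j := by change rk F + 1 = j; omega
      rw [e1]
      exact Iff.rfl
    rw [e]
    exact (Set.ncard_coe_finset _).trans h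
  flag_conn := by
    intro Φ Ψ hΦ hΨ
    obtain ⟨i, rfl⟩ := exists_eq_flF hΦ
    obtain ⟨j, rfl⟩ := exists_eq_flF hΨ
    exact path i j

/-! ## The polygons -/

/-- vertices around the 2-face `33 + f` -/
def gFA (f : Fin 8) (k : ZMod 6) : Fin 42 := Fin.ofNat 42 ((tFA >>> (6 * (6 * f.val + k.val))) % 64)
/-- edges around the 2-face `33 + f` -/
def gFB (f : Fin 8) (k : ZMod 6) : Fin 42 := Fin.ofNat 42 ((tFB >>> (6 * (6 * f.val + k.val))) % 64)
/-- edges around the vertex `1 + v` -/
def gVA (v : Fin 8) (k : ZMod 6) : Fin 42 := Fin.ofNat 42 ((tVA >>> (6 * (6 * v.val + k.val))) % 64)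
/-- 2-faces around the vertex `1 + v` -/
def gVB (v : Fin 8) (k : ZMod 6) : Fin 42 := Fin.ofNat 42 ((tVB >>> (6 * (6 * v.val + k.val))) % 64)

theorem gF_inj : ∀ (f : Fin 8) (i j : ZMod 6), (gFA f i = gFA f j → i = j) ∧
    (gFB f i = gFB f j → i = j) := by decide +kernel
theorem gV_inj : ∀ (f : Fin 8) (i j : ZMod 6), (gVA f i = gVA f j → i = j) ∧
    (gVB f i = gVB f j → i = j) := by decide +kernel
theorem gF_inc : ∀ (f : Fin 8) (i j : ZMod 6), leb (gFA f i) (gFB f j) = true ↔ i = j ∨ i = j + 1 := by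
  decide +kernel
theorem gV_inc : ∀ (f : Fin 8) (i j : ZMod 6), leb (gVA f i) (gVB f j) = true ↔ i = j ∨ i = j + 1 := by
  decide +kernel
theorem gFA_range : ∀ (f : Fin 8) (x : Fin 42), (∃ k, gFA f k = x) ↔
    (rkN x = 0 ∧ leb x (Fin.ofNat 42 (33 + f.val)) = true) := by decide +kernel
theorem gFB_range : ∀ (f : Fin 8) (x : Fin 42), (∃ k, gFB f k = x) ↔
    (rkN x = 1 ∧ leb x (Fin.ofNat 42 (33 + f.val)) = true) := by decide +kernel
theorem gVA_range : ∀ (f : Fin 8) (x : Fin 42), (∃ k, gVA f k = x) ↔
    (rkN x = 1 ∧ leb (Fin.ofNat 42 (1 + f.val)) x = true) := by decide +kernel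
theorem gVB_range : ∀ (f : Fin 8) (x : Fin 42), (∃ k, gVB f k = x) ↔
    (rkN x = 2 ∧ leb (Fin.ofNat 42 (1 + f.val)) x = true) := by decide +kernel
theorem face_num : ∀ x : Fin 42, (rkN x = 2 → ∃ f : Fin 8, x = Fin.ofNat 42 (33 + f.val)) ∧
    (rkN x = 0 → ∃ f : Fin 8, x = Fin.ofNat 42 (1 + f.val)) := by decide +kernel

theorem isEquivelar : IsEquivelar rk 6 6 := by
  constructor
  · intro b G hb hG
    obtain rfl := (rk_bo b).1 hb
    obtain ⟨f, rfl⟩ := (face_num G).1 hG
    refine ⟨gFA f, gFB f, fun i j h => (gF_inj f i j).1 h, fun i j h => (gF_inj f i j).2 h, ?_, ?_,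
      gF_inc f⟩
    · refine Set.ext fun x => (gFA_range f x).trans ?_
      exact ⟨fun h => ⟨h.1.trans (by rw [hb]; norm_num), bo_le x, h.2⟩,
        fun h => ⟨h.1.trans (by rw [hb]; norm_num), h.2.2⟩⟩
    · refine Set.ext fun x => (gFB_range f x).trans ?_
      exact ⟨fun h => ⟨h.1.trans (by rw [hb]; norm_num), bo_le x, h.2⟩,
        fun h => ⟨h.1.trans (by rw [hb]; norm_num), h.2.2⟩⟩
  · intro F t hF ht
    obtain rfl := (rk_to t).1 ht
    obtain ⟨f, rfl⟩ := (face_num F).2 hF
    refine ⟨gVA f, gVB f, fun i j h => (gV_inj f i j).1 h, fun i j h => (gV_inj f i j).2 h, ?_, ?_,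
      gV_inc f⟩
    · refine Set.ext fun x => (gVA_range f x).trans ?_
      exact ⟨fun h => ⟨h.1.trans (by rw [hF]; norm_num), h.2, le_to x⟩,
        fun h => ⟨h.1.trans (by rw [hF]; norm_num), h.2.1⟩⟩
    · refine Set.ext fun x => (gVB_range f x).trans ?_
      exact ⟨fun h => ⟨h.1.trans (by rw [hF]; norm_num), h.2, le_to x⟩,
        fun h => ⟨h.1.trans (by rw [hF]; norm_num), h.2.1⟩⟩

/-! ## Dualities -/

/-- a duality -/
def de (x : Fin 42) : Fin 42 := Fin.ofNat 42 ((tde >>> (6 * x.val)) % 64)
/-- its inverse -/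
def di (x : Fin 42) : Fin 42 := Fin.ofNat 42 ((tdi >>> (6 * x.val)) % 64)

theorem de_di : ∀ x, di (de x) = x ∧ de (di x) = x := by decide +kernel
theorem de_le : ∀ x y, leb x y = true ↔ leb (de y) (de x) = true := by decide +kernel

/-- a duality -/
def delta : Face ≃ Face where
  toFun := de
  invFun := di
  left_inv x := (de_di x).1
  right_inv x := (de_di x).2

theorem isDuality_delta : IsDuality delta := fun x y => de_le x y

/-- the action of a word -/
def act (w : List (Fin 3)) (i : Fin 96) : Fin 96 := w.foldl (fun j k => s k j) i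
/-- the action of the dual word -/
def act' (w : List (Fin 3)) (i : Fin 96) : Fin 96 := w.foldl (fun j k => s (2 - k) j) i

/-- the words -/
def w1 : List (Fin 3) := [1, 0, 2, 1, 2, 1, 0, 2, 1, 2]
/-- the words -/
def w2 : List (Fin 3) := [0, 1, 0, 1, 2, 1, 0, 1, 2, 1, 0, 1]
/-- the words -/
def w3 : List (Fin 3) := [0, 1, 2, 1, 0, 1, 2, 1]
/-- the words -/
def w4 : List (Fin 3) := [1, 2, 1, 2, 1, 2]
/-- the words -/
def w5 : List (Fin 3) := [0, 1, 0, 1, 0, 1]

theorem words : act w1 0 = 0 ∧ act w2 0 = 0 ∧ act w3 0 = 0 ∧ act w4 0 = 4 ∧ act w5 0 = 12 ∧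
    act' w4 4 ≠ 0 ∧ act' w5 12 ≠ 0 := by decide +kernel

theorem words' : ∀ j : Fin 96, j = 4 ∨ j = 12 ∨ act' w1 j ≠ j ∨ act' w2 j ≠ j ∨ act' w3 j ≠ j := by
  decide +kernel

theorem eq_of_faces {i j : Fin 96} (h : ∀ k, fk k i = fk k j) : i = j := by
  rcases differ (i := i) (j := j) 0 (fun l _ => h l) with h1 | h1
  · exact h1.symm
  · exfalso
    have h2 := fk_s_ne 0 i
    rw [← h1] at h2
    exact h2 (h 0).symm

theorem no_polarity (δ : Face ≃ Face) (hδ : IsDuality δ) (h2 : ∀ F, δ (δ F) = F) : False := by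
  have hlt : ∀ x y : Face, x < y → rk (δ y) < rk (δ x) := by
    intro x y h
    refine rank_lt (lt_of_le_of_ne ((hδ x y).1 h.le) fun h' => h.ne (δ.injective h').symm)
  have hrange : ∀ x : Face, -1 ≤ rk x ∧ rk x ≤ 3 := by
    intro x
    rcases rk_cases x with h | h | h | h | h <;> omega
  have hr : ∀ i : Fin 96, rk (δ (toF (vf i))) = 2 ∧ rk (δ (toF (ef i))) = 1 ∧
      rk (δ (toF (ff i))) = 0 := by
    intro i
    have a0 : bo < (toF (vf i)) := lt_of_le_of_ne (bo_le _) fun h => by
      have := (rk_bo _).2 h.symm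
      have h' : rk (toF (vf i)) = 0 := rk_vf i
      omega
    have a1 : (toF (vf i)) < (toF (ef i)) := lt_of_le_of_ne (vf_le_ef i) fun h => by
      have h1 : rk (toF (vf i)) = 0 := rk_vf i
      have h2 : rk (toF (ef i)) = 1 := rk_ef i
      rw [h] at h1
      omega
    have a2 : (toF (ef i)) < (toF (ff i)) := lt_of_le_of_ne (ef_le_ff i) fun h => by
      have h1 : rk (toF (ef i)) = 1 := rk_ef i
      have h2 : rk (toF (ff i)) = 2 := rk_ff i
      rw [h] at h1
      omega
    have a3 : (toF (ff i)) < tp := lt_of_le_of_ne (le_to _) fun h => by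
      have := (rk_to _).2 h
      have h' : rk (toF (ff i)) = 2 := rk_ff i
      omega
    have b0 := hlt _ _ a0
    have b1 := hlt _ _ a1
    have b2 := hlt _ _ a2
    have b3 := hlt _ _ a3
    have c0 := hrange (δ bo)
    have c1 := hrange (δ tp)
    omega
  have hg : ∀ i : Fin 96, ∃ j : Fin 96, (toF (fk 0 j)) = δ (toF (fk 2 i)) ∧
      (toF (fk 1 j)) = δ (toF (fk 1 i)) ∧ (toF (fk 2 j)) = δ (toF (fk 0 i)) := by
    intro i
    obtain ⟨h3, h4, h5⟩ := hr i
    exact exists_flag (δ (toF (ff i))) (δ (toF (ef i))) (δ (toF (vf i))) h5 h4 h3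
      ((hδ _ _).1 (ef_le_ff i)) ((hδ _ _).1 (vf_le_ef i))
  choose g g0 g1 g2 using hg
  have hgk : ∀ (k : Fin 3) (i : Fin 96), (toF (fk (2 - k) (g i))) = δ (toF (fk k i)) := by
    intro k i
    fin_cases k
    · exact g2 i
    · exact g1 i
    · exact g0 i
  have hgs : ∀ (k : Fin 3) (i : Fin 96), g (s k i) = s (2 - k) (g i) := by
    intro k i
    have h3 : ∀ l, l ≠ 2 - k → fk l (g i) = fk l (g (s k i)) := by
      intro l hl
      obtain ⟨l', rfl⟩ : ∃ l' : Fin 3, l = 2 - l' := ⟨2 - l, (show ∀ l : Fin 3, l = 2 - (2 - l) by decide) l⟩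
      have h4 : k ≠ l' := fun h => hl (by rw [h])
      have h5 := hgk l' i
      have h6 := hgk l' (s k i)
      rw [fk_s k l' i h4] at h6
      exact h5.trans h6.symm
    rcases differ (2 - k) h3 with h4 | h4
    · exfalso
      have h5 := hgk k i
      have h6 := hgk k (s k i)
      rw [h4] at h6
      exact fk_s_ne k i (δ.injective (h6.symm.trans h5))
    · exact h4
  have hact : ∀ (w : List (Fin 3)) (i : Fin 96), g (act w i) = act' w (g i) := by
    intro w
    induction w with
    | nil => intro i; rfl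
    | cons k w ih =>
      intro i
      change g (act w (s k i)) = act' w (s (2 - k) (g i))
      rw [ih, hgs]
  have hgg : ∀ i, g (g i) = i := by
    intro i
    apply eq_of_faces
    intro k
    have h3 := hgk (2 - k) (g i)
    have e : (2 : Fin 3) - (2 - k) = k := (show ∀ k : Fin 3, (2 : Fin 3) - (2 - k) = k by decide) k
    rw [e, hgk k i, h2] at h3
    exact h3
  obtain ⟨e1, e2, e3, e4, e5, e6, e7⟩ := words
  rcases words' (g 0) with h | h | h | h | h
  · have h3 := hact w4 0
    have h4 : g 4 = 0 := by rw [← h]; exact hgg 0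
    rw [e4, h4, h] at h3
    exact e6 h3.symm
  · have h3 := hact w5 0
    have h4 : g 12 = 0 := by rw [← h]; exact hgg 0
    rw [e5, h4, h] at h3
    exact e7 h3.symm
  · exact h (by rw [← hact, e1])
  · exact h (by rw [← hact, e2])
  · exact h (by rw [← hact, e3])

/-- **There is a (finite) equivelar self-dual polyhedron, of type `{6, 6}`, that possesses no
polarity.** -/
theorem result : ∃ (P : Type) (_ : PartialOrder P) (rk : P → ℤ), Finite P ∧ IsPolyhedron rk ∧
    IsEquivelar rk 6 6 ∧ (∃ δ : P ≃ P, IsDuality δ) ∧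
    ¬ ∃ δ : P ≃ P, IsDuality δ ∧ ∀ F, δ (δ F) = F :=
  ⟨Face, inferInstance, rk, inferInstance, isPolyhedron, isEquivelar, ⟨delta, isDuality_delta⟩,
    fun ⟨δ, h1, h2⟩ => no_polarity δ h1 h2⟩

end Pool.Agent.Results.MP_1940b6_co.NoPolarity
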